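import Pool.Agent.H64.STM.Targets

/-!
# PMT: the pairings of diagrams are powers of the super dimension
-/

set_option autoImplicit false

open Matrix Pool.Agent.H64.CC Pool.Agent.H2.NL Pool.Agent.H64.EV Pool.Agent.H64.FTM Pool.Agent.H64.STM

namespace Pool.Agent.H64.STMR

theorem itf_smul {K : Type} [Field K] {I : Type} [Fintype I] [DecidableEq I] (F : OForm K I) (x : K) :
    ∀ (k : ℕ) (f : (Fin (2 * k) → I) → K), itf F k (fun w => x * f w) = x * itf F k f := by
  intro k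
  induction k with
  | zero => intro f; rfl
  | succ k ih =>
    intro f
    show itf F k (cf F fun w => x * f w) = x * itf F k (cf F f)
    rw [← ih]
    congr 1
    funext w
    unfold cf
    rw [Finset.mul_sum]
    exact Finset.sum_congr rfl fun a _ => by ring

theorem itf_pow (hACT : T_ACT) (hCDI : T_CDI) : ∀ (k : ℕ) (σ : Equiv.Perm (Fin (2 * k))), ∃ e : ℕ,
    ∀ (K : Type) [Field K] (I : Type) [Fintype I] [DecidableEq I] (F : OForm K I),
      itf F k (ac F.o σ (dg F k)) = F.sd ^ e := by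
  intro k
  induction k with
  | zero =>
    intro σ
    refine ⟨0, fun K _ I _ _ F => ?_⟩
    have h : σ = 1 := by
      ext i
      exact absurd i.2 (by omega)
    rw [h, (hACT K I F.o (2 * 0)).2.1, pow_zero]
    rfl
  | succ k ih =>
    intro σ
    obtain ⟨π, e1, h1⟩ := hCDI k σ
    obtain ⟨e2, h2⟩ := ih π
    refine ⟨e1 + e2, fun K _ I _ _ F => ?_⟩
    have h3 : itf F (k + 1) (ac F.o σ (dg F (k + 1))) =
        itf F k (cf F (ac F.o σ (dg F (k + 1)))) := rfl
    have h4 : cf F (ac F.o σ (dg F (k + 1))) = fun w => F.sd ^ e1 * ac F.o π (dg F k) w :=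
      funext (h1 K I F)
    rw [h3, h4, itf_smul, h2 K I F, pow_add]

theorem pf_PMT (hACT : T_ACT) (hPRF : T_PRF) (hCDI : T_CDI) (hEVC : T_EVC) : T_PMT := by
  intro k σ τ
  obtain ⟨e, he⟩ := itf_pow hACT hCDI k ((Fin.revPerm * τ * Fin.revPerm)⁻¹ * σ)
  refine ⟨e, fun K _ I _ _ F => ?_⟩
  obtain ⟨a1, -, -, -⟩ := hACT K I F.o (2 * k)
  obtain ⟨-, p2, p3, -⟩ := hPRF K I F (2 * k)
  obtain ⟨-, e2, -, -, -⟩ := hEVC K I F
  have h1 : ∀ f g : (Fin (2 * k) → I) → K,
      pr F f (ac F.o (Fin.revPerm * τ * Fin.revPerm) g) =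
        pr F (ac F.o (Fin.revPerm * τ * Fin.revPerm)⁻¹ f) g := by
    intro f g
    rw [p2, inv_inv]
  rw [p3, h1, ← a1, e2, he K I F]

end Pool.Agent.H64.STMR
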