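import Pool.Agent.H64.STM.Targets

/-!
# SFB: the relations only depend on the super dimension
-/

set_option autoImplicit false

open Matrix Pool.Agent.H64.CC Pool.Agent.H2.NL Pool.Agent.H64.EV Pool.Agent.H64.FTM Pool.Agent.H64.STM

namespace Pool.Agent.H64.STMR

theorem lc_pr {K : Type} [Field K] [CharZero K] {I : Type} [Fintype I] [DecidableEq I]
    (F : OForm K I) {m : ℕ} (D g : (Fin m → I) → K) (c : List (ℚ × Equiv.Perm (Fin m))) :
    pr F (lc F.o D c) g = (c.map fun x => (x.1 : K) * pr F (ac F.o x.2 D) g).sum := by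
  induction c with
  | nil =>
    unfold pr lc
    simp
  | cons x c ih =>
    rw [List.map_cons, List.sum_cons, ← ih]
    unfold pr
    rw [Finset.mul_sum, ← Finset.sum_add_distrib]
    refine Finset.sum_congr rfl fun w _ => ?_
    have h1 : lc F.o D (x :: c) w = (x.1 : K) * ac F.o x.2 D w + lc F.o D c w := by
      unfold lc
      rw [List.map_cons, List.sum_cons]
    rw [h1]
    ring

theorem lc_zero {K : Type} [Field K] {I : Type} [Fintype I] [DecidableEq I]
    (F : OForm K I) {m : ℕ} (f g : (Fin m → I) → K) (h : ∀ w, f w = 0) : pr F f g = 0 := by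
  unfold pr
  refine Finset.sum_eq_zero fun w _ => ?_
  rw [h w, mul_zero, zero_mul]

theorem pf_SFB (hPMT : T_PMT) (hSTN : T_STN) : T_SFB := by
  intro K _ _ I I' _ _ _ _ F F' s ho hc hsd k c
  have he : ∀ σ τ : Equiv.Perm (Fin (2 * k)), ∃ e : ℕ, ∀ (K : Type) [Field K]
      (I : Type) [Fintype I] [DecidableEq I] (F : OForm K I),
      pr F (ac F.o σ (dg F k)) (rvf (ac F.o τ (dg F k))) = F.sd ^ e := hPMT k
  choose e he using he
  have h1 : ∀ τ : Equiv.Perm (Fin (2 * k)),
      pr F (lc F.o (dg F k) c) (rvf (ac F.o τ (dg F k))) =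
        ((pr F' (lc F'.o (dg F' k) c) (rvf (ac F'.o τ (dg F' k))) : ℚ) : K) := by
    intro τ
    rw [lc_pr, lc_pr]
    have h2 : ∀ x : ℚ × Equiv.Perm (Fin (2 * k)),
        (x.1 : K) * pr F (ac F.o x.2 (dg F k)) (rvf (ac F.o τ (dg F k))) =
          ((((x.1 : ℚ) : ℚ) * pr F' (ac F'.o x.2 (dg F' k)) (rvf (ac F'.o τ (dg F' k))) : ℚ) : K) := by
      intro x
      rw [he x.2 τ K I F, he x.2 τ ℚ I' F', hsd]
      push_cast
      rfl
    induction c with
    | nil => simp
    | cons x c ih =>
      rw [List.map_cons, List.sum_cons, List.map_cons, List.sum_cons, ih, h2 x]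
      push_cast
      rfl
  constructor
  · intro h
    refine hSTN I' F' s ho hc k c fun τ => ?_
    have h3 := h τ
    rw [h1 τ] at h3
    exact_mod_cast h3
  · intro h τ
    rw [h1 τ, lc_zero F' _ _ h]
    exact Rat.cast_zero

end Pool.Agent.H64.STMR
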