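import Pool.Agent.H64.STM.Targets

/-!
# STX: the standard form
-/

set_option autoImplicit false

open Matrix Pool.Agent.H64.CC Pool.Agent.H2.NL Pool.Agent.H64.EV Pool.Agent.H64.FTM Pool.Agent.H64.STM

namespace Pool.Agent.H64.STMR

theorem pf_STX : T_STX := by
  intro s b hb
  refine ⟨?_, ?_, fun _ => rfl, ?_⟩
  · ext x y
    show (if y = (stdF s b hb).st x then ((stdF s b hb).c y)⁻¹ else 0) =
      (if s = true then
        (if x.1 + 1 = y.1 ∧ Even x.1 then (1 : ℚ) else if y.1 + 1 = x.1 ∧ Even y.1 then -1 else 0)
      else if x = y then 1 else 0)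
    cases s with
    | false =>
      have e1 : (stdF false b hb).st x = x := rfl
      have e2 : (stdF false b hb).c y = 1 := rfl
      rw [e1, e2]
      simp [eq_comm]
    | true =>
      have e2 : (stdF true b hb).c y = if Even y.1 then -1 else 1 := by
        show (if true = true ∧ Even y.1 then (-1 : ℚ) else 1) = _
        simp
      rw [e2]
      by_cases hx : Even x.1
      · have e1 : ((stdF true b hb).st x).1 = x.1 + 1 := by
          show (if h : true = true then (if h' : Even x.1 then _ else _) else x : Fin b).1 = _
          rw [dif_pos rfl, dif_pos hx]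
        by_cases hxy : y.1 = x.1 + 1
        · have h3 : ¬ Even y.1 := by
            rw [hxy, Nat.not_even_iff_odd]
            exact hx.add_one
          rw [if_pos (Fin.ext (by rw [e1, hxy])), if_neg h3, if_pos rfl, if_pos ⟨hxy.symm, hx⟩]
          norm_num
        · rw [if_neg (fun h => hxy (by rw [h, e1])), if_pos rfl, if_neg (fun h => hxy h.1.symm),
            if_neg]
          rintro ⟨h4, h5⟩
          rw [← h4] at hx
          exact absurd h5 (by rw [Nat.even_add_one] at hx; exact hx)
      · have hx1 : 1 ≤ x.1 := by
          rcases Nat.eq_zero_or_pos x.1 with h3 | h3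
          · rw [h3] at hx
            exact absurd Even.zero hx
          · exact h3
        have e1 : ((stdF true b hb).st x).1 = x.1 - 1 := by
          show (if h : true = true then (if h' : Even x.1 then _ else _) else x : Fin b).1 = _
          rw [dif_pos rfl, dif_neg hx]
        have hxn : ¬ (x.1 + 1 = y.1 ∧ Even x.1) := fun h => hx h.2
        by_cases hxy : y.1 + 1 = x.1
        · have h3 : Even y.1 := by
            by_contra h4
            apply hx
            rw [← hxy, Nat.even_add_one]
            exact h4
          rw [if_pos (Fin.ext (by rw [e1]; omega)), if_pos h3, if_pos rfl, if_neg hxn,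
            if_pos ⟨hxy, h3⟩]
          norm_num
        · rw [if_neg (fun h => hxy (by rw [h, e1]; omega)), if_pos rfl, if_neg hxn,
            if_neg (fun h => hxy h.1)]
  · show ∑ _a : Fin b, sg ℚ s = _
    rw [Finset.sum_const, Finset.card_univ, Fintype.card_fin]
    cases s
    · simp [sg]
    · simp [sg]
  · intro a
    show (if s = true ∧ Even a.1 then (-1 : ℚ) else 1) * (if s = true ∧ Even a.1 then (-1 : ℚ) else 1) = 1
    split_ifs <;> norm_num

end Pool.Agent.H64.STMR
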